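import Pool.Agent.H25.HK.Targets

set_option autoImplicit false

open NumberField NumberField.InfinitePlace NumberField.Units
  NumberField.Units.dirichletUnitTheorem MeasureTheory Set Filter Complex
open scoped nonZeroDivisors ENNReal

namespace Pool.Agent.H87.HK

open _root_.Pool.Agent.H25.HK

section

variable (K : Type) [Field K] [NumberField K]

open scoped Classical in
lemma yc_w0 (τ : ℝ) (z : logSpace K) : yc K τ z w₀ = 2 * τ / Module.finrank ℚ K +
    -(2 / ((w₀ : InfinitePlace K).mult : ℝ)) * ∑ w, z w := by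
  unfold yc
  rw [dif_pos rfl]

lemma yc_ne (τ : ℝ) (z : logSpace K) (v : {w : InfinitePlace K // w ≠ w₀}) :
    yc K τ z v = 2 * τ / Module.finrank ℚ K + 2 * z v / (v.1.mult : ℝ) := by
  unfold yc
  rw [dif_neg v.2]

omit [NumberField K] in
lemma mult_pos' (v : InfinitePlace K) : (0 : ℝ) < (v.mult : ℝ) := by
  exact_mod_cast mult_pos

end

theorem yc_main : T_YC := by
  intro K _ _
  classical
  have hn : (Module.finrank ℚ K : ℝ) ≠ 0 := by
    exact_mod_cast (Module.finrank_pos (R := ℚ) (M := K)).ne'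
  have hw : ((w₀ : InfinitePlace K).mult : ℝ) ≠ 0 := (mult_pos' K _).ne'
  refine ⟨?_, ?_, ?_, ?_, ?_, ?_⟩
  · intro τ z
    rw [Fintype.sum_eq_add_sum_subtype_ne _ w₀, yc_w0]
    have h1 : ∀ v : {w : InfinitePlace K // w ≠ w₀}, (v.1.mult : ℝ) * yc K τ z v =
        (v.1.mult : ℝ) * (2 * τ / Module.finrank ℚ K) + 2 * z v := by
      intro v
      rw [yc_ne]
      have := (mult_pos' K v.1).ne'
      field_simp
    have h2 : ∑ v : {w : InfinitePlace K // w ≠ w₀}, (v.1.mult : ℝ) * yc K τ z v =
        (∑ v : {w : InfinitePlace K // w ≠ w₀}, (v.1.mult : ℝ)) * (2 * τ / Module.finrank ℚ K) +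
          2 * ∑ v, z v := by
      rw [Finset.sum_congr rfl fun v _ => h1 v, Finset.sum_add_distrib, Finset.sum_mul,
        Finset.mul_sum]
    rw [h2]
    have h3 : ((w₀ : InfinitePlace K).mult : ℝ) +
        ∑ v : {w : InfinitePlace K // w ≠ w₀}, (v.1.mult : ℝ) = Module.finrank ℚ K := by
      rw [← sum_mult_eq (K := K), Nat.cast_sum, Fintype.sum_eq_add_sum_subtype_ne _ w₀]
    have h4 : ∑ v : {w : InfinitePlace K // w ≠ w₀}, (v.1.mult : ℝ) =
        Module.finrank ℚ K - ((w₀ : InfinitePlace K).mult : ℝ) := by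
      rw [← h3]; ring
    rw [h4]
    field_simp
    ring
  · intro τ z
    funext v
    rw [Pi.neg_apply]
    by_cases h : v = w₀
    · subst h
      rw [yc_w0, yc_w0]
      simp only [Pi.neg_apply, Finset.sum_neg_distrib]
      ring
    · have h1 := yc_ne K (-τ) (-z) ⟨v, h⟩
      have h2 := yc_ne K τ z ⟨v, h⟩
      simp only at h1 h2
      rw [h1, h2, Pi.neg_apply]
      ring
  · intro τ z u v
    by_cases h : v = w₀
    · subst h
      rw [yc_w0, yc_w0]
      simp only [Pi.add_apply, Finset.sum_add_distrib]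
      rw [sum_logEmbedding_component]
      field_simp
      ring
    · have h1 := yc_ne K τ (z + logEmbedding K (Additive.ofMul u)) ⟨v, h⟩
      have h2 := yc_ne K τ z ⟨v, h⟩
      simp only at h1 h2
      rw [h1, h2, Pi.add_apply, logEmbedding_component]
      have := (mult_pos' K v).ne'
      simp only
      field_simp
      ring
  · intro τ z v
    by_cases h : v = w₀
    · subst h
      rw [yc_w0, yc_w0]
      ring
    · have h1 := yc_ne K τ z ⟨v, h⟩
      have h2 := yc_ne K 0 z ⟨v, h⟩
      simp only at h1 h2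
      rw [h1, h2]
      ring
  · refine continuous_pi fun v => ?_
    by_cases h : v = w₀
    · subst h
      simp only [yc_w0]
      fun_prop
    · have h1 : (fun p : ℝ × logSpace K => yc K p.1 p.2 v) = fun p =>
          2 * p.1 / Module.finrank ℚ K + 2 * p.2 ⟨v, h⟩ / (v.mult : ℝ) :=
        funext fun p => yc_ne K p.1 p.2 ⟨v, h⟩
      rw [h1]
      fun_prop
  · intro B
    refine ⟨2 * (Fintype.card {w : InfinitePlace K // w ≠ w₀} + 1) * |B|, ?_⟩
    intro z hz v
    have hz' : ∀ w, |z w| ≤ |B| := fun w => (hz w).trans (le_abs_self B)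
    have hB := abs_nonneg B
    by_cases h : v = w₀
    · subst h
      rw [yc_w0]
      have h1 : |∑ w, z w| ≤ Fintype.card {w : InfinitePlace K // w ≠ w₀} * |B| := by
        refine (Finset.abs_sum_le_sum_abs _ _).trans ?_
        refine (Finset.sum_le_card_nsmul _ _ _ fun w _ => hz' w).trans ?_
        rw [nsmul_eq_mul, Finset.card_univ]
      have h2 : (1 : ℝ) ≤ ((w₀ : InfinitePlace K).mult : ℝ) := by
        exact_mod_cast one_le_mult
      have h3 : 2 / ((w₀ : InfinitePlace K).mult : ℝ) ≤ 2 := by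
        rw [div_le_iff₀ (by linarith)]
        linarith
      have h4 : 0 ≤ 2 / ((w₀ : InfinitePlace K).mult : ℝ) := by positivity
      rw [mul_zero, zero_div, zero_add, abs_mul, abs_neg, abs_of_nonneg h4]
      calc 2 / ((w₀ : InfinitePlace K).mult : ℝ) * |∑ w, z w|
          ≤ 2 * (Fintype.card {w : InfinitePlace K // w ≠ w₀} * |B|) :=
            mul_le_mul h3 h1 (abs_nonneg _) (by norm_num)
        _ ≤ 2 * (Fintype.card {w : InfinitePlace K // w ≠ w₀} + 1) * |B| := by
            nlinarith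
    · have h1 := yc_ne K 0 z ⟨v, h⟩
      simp only at h1
      rw [h1]
      have h2 : (1 : ℝ) ≤ (v.mult : ℝ) := by
        exact_mod_cast one_le_mult
      rw [mul_zero, zero_div, zero_add, abs_div, abs_mul, abs_of_pos (by linarith : (0:ℝ) < v.mult),
        abs_two, div_le_iff₀ (by linarith)]
      have h3 := hz' ⟨v, h⟩
      have h4 : (0 : ℝ) ≤ Fintype.card {w : InfinitePlace K // w ≠ w₀} := Nat.cast_nonneg _
      have h5 : 0 ≤ (Fintype.card {w : InfinitePlace K // w ≠ w₀} : ℝ) * |B| := by positivity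
      nlinarith [mul_nonneg h5 (by linarith : (0 : ℝ) ≤ (v.mult : ℝ)),
        mul_nonneg hB (by linarith : (0 : ℝ) ≤ (v.mult : ℝ) - 1)]

end Pool.Agent.H87.HK
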