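import Pool.Agent.H87.HK.CT

set_option autoImplicit false

open NumberField NumberField.InfinitePlace NumberField.Units
  NumberField.Units.dirichletUnitTheorem MeasureTheory Set Filter Complex
open scoped nonZeroDivisors ENNReal

namespace Pool.Agent.H87.HK

open _root_.Pool.Agent.H25.HK

lemma qK_const {K : Type} [Field K] [NumberField K] (c : ℝ) (x : K) :
    qK K (fun _ => c) x = Real.exp c * qK K (fun _ => 0) x := by
  unfold qK
  rw [Finset.mul_sum]
  refine Finset.sum_congr rfl fun v _ => ?_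
  rw [Real.exp_zero]
  ring

lemma qK_nonneg {K : Type} [Field K] [NumberField K] (y : InfinitePlace K → ℝ) (x : K) :
    0 ≤ qK K y x := by
  unfold qK
  positivity

lemma qK_pos {K : Type} [Field K] [NumberField K] (y : InfinitePlace K → ℝ) {x : K}
    (hx : x ≠ 0) : 0 < qK K y x := by
  unfold qK
  refine Finset.sum_pos (fun v _ => ?_) Finset.univ_nonempty
  have h1 : (0 : ℝ) < v.mult := by exact_mod_cast mult_pos
  have h2 : 0 < v x := NumberField.InfinitePlace.pos_iff.2 hx
  positivity

lemma qK_zero {K : Type} [Field K] [NumberField K] (y : InfinitePlace K → ℝ) :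
    qK K y (0 : K) = 0 := by
  unfold qK
  simp

lemma exists_delta {K : Type} [Field K] [NumberField K] (M : FI K)
    (hs : Summable (fun x : {x : K // x ∈ M} => Real.exp (-Real.pi * qK K (fun _ => 0) x))) :
    ∃ δ : ℝ, 0 < δ ∧ ∀ x : {x : K // x ∈ M}, (x : K) ≠ 0 → δ ≤ qK K (fun _ => 0) (x : K) := by
  have hfin : {x : {x : K // x ∈ M} | qK K (fun _ => 0) (x : K) < 1}.Finite := by
    have h1 := hs.tendsto_cofinite_zero
    have h2 := h1.eventually (gt_mem_nhds (Real.exp_pos (-Real.pi)))
    rw [Filter.eventually_cofinite] at h2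
    refine h2.subset ?_
    intro x hx h3
    rw [Real.exp_lt_exp] at h3
    have h4 : qK K (fun _ => 0) (x : K) < 1 := hx
    have := Real.pi_pos
    nlinarith
  classical
  let F : Finset {x : K // x ∈ M} :=
    hfin.toFinset.filter (fun x : {x : K // x ∈ M} => (x : K) ≠ 0)
  by_cases hF : F.Nonempty
  · obtain ⟨x0, hx0, hmin⟩ := Finset.exists_min_image F
      (fun x : {x : K // x ∈ M} => qK K (fun _ => 0) (x : K)) hF
    have hx0' : (x0 : K) ≠ 0 := (Finset.mem_filter.1 hx0).2
    refine ⟨min 1 (qK K (fun _ => 0) (x0 : K)), lt_min one_pos (qK_pos _ hx0'), ?_⟩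
    intro x hx
    by_cases h : qK K (fun _ => 0) (x : K) < 1
    · refine (min_le_right _ _).trans (hmin x ?_)
      rw [Finset.mem_filter]
      exact ⟨hfin.mem_toFinset.2 h, hx⟩
    · exact (min_le_left _ _).trans (not_lt.1 h)
  · refine ⟨1, one_pos, ?_⟩
    intro x hx
    by_contra h
    exact hF ⟨x, Finset.mem_filter.2 ⟨hfin.mem_toFinset.2 (not_le.1 h), hx⟩⟩

theorem dc (h1 : T_TH) (h2 : T_YC) (h3 : T_FD) : T_DC := by
  intro K _ _ M hM
  classical
  obtain ⟨B, hB⟩ := (h3 K).2.1
  obtain ⟨C0, hC0⟩ := (h2 K).2.2.2.2.2 B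
  have hyc := (h2 K).2.2.2.1
  obtain ⟨δ, hδ, hδ2⟩ := exists_delta M (h1 K M hM _).1
  have hsum := (h1 K M hM (fun _ => -C0 - Real.log 2)).1
  have hq : ∀ x : K, qK K (fun _ => -C0 - Real.log 2) x =
      Real.exp (-C0) / 2 * qK K (fun _ => 0) x := by
    intro x
    rw [qK_const, Real.exp_sub, Real.exp_log two_pos]
  refine ⟨∑' x : {x : K // x ∈ M}, Real.exp (-Real.pi * qK K (fun _ => -C0 - Real.log 2) x),
    Real.pi * Real.exp (-C0) / 2 * δ, by positivity, ?_⟩
  intro t ht z hz
  have htpos : 0 < t := by linarith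
  set s : ℝ := t ^ ((2 : ℝ) / Module.finrank ℚ K) with hs
  have hs1 : 1 ≤ s := Real.one_le_rpow ht (by positivity)
  have hsexp : s = Real.exp (2 * Real.log t / Module.finrank ℚ K) := by
    rw [hs, Real.rpow_def_of_pos htpos]
    congr 1
    ring
  have hlow : ∀ x : K, Real.exp (-C0) * s * qK K (fun _ => 0) x ≤
      qK K (yc K (Real.log t) z) x := by
    intro x
    have h4 : ∀ v, (2 * Real.log t / Module.finrank ℚ K - C0) ≤ yc K (Real.log t) z v := by
      intro v
      rw [hyc]
      have := neg_abs_le (yc K 0 z v)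
      have h5 := hC0 z (hB z hz) v
      linarith
    have h5 := qK_mono (y := fun _ => 2 * Real.log t / Module.finrank ℚ K - C0) h4 x
    rw [qK_const, sub_eq_add_neg, Real.exp_add, ← hsexp] at h5
    linarith [h5, mul_comm s (Real.exp (-C0))]
  have hmain := (h1 K M hM (yc K (Real.log t) z)).1
  have hth : th K M (yc K (Real.log t) z) - 1 =
      ∑' x : {x : K // x ∈ M}, ite (x = ⟨0, M.zero_mem⟩) 0
        (Real.exp (-Real.pi * qK K (yc K (Real.log t) z) x)) := by
    unfold th
    rw [hmain.tsum_eq_add_tsum_ite ⟨0, M.zero_mem⟩]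
    simp only
    rw [qK_zero, mul_zero, Real.exp_zero]
    ring
  rw [hth, ← Real.norm_eq_abs]
  refine tsum_of_norm_bounded (hsum.hasSum.mul_right _) ?_
  intro x
  have hπ := Real.pi_pos
  have ha := Real.exp_pos (-C0)
  split_ifs with hx
  · rw [norm_zero]
    positivity
  · have hx' : (x : K) ≠ 0 := fun h => hx (Subtype.ext h)
    rw [Real.norm_eq_abs, abs_of_pos (Real.exp_pos _), ← Real.exp_add, hq]
    apply Real.exp_le_exp.2
    have h5 := hlow x
    have h6 := hδ2 x hx'
    have h7 : 0 ≤ qK K (fun _ => 0) (x : K) := qK_nonneg _ _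
    set q := qK K (fun _ => 0) (x : K) with hqdef
    set a := Real.exp (-C0) with hadef
    have h8 : a / 2 * q + a / 2 * δ * s ≤ a * s * q := by
      have h9 : a / 2 * q ≤ a / 2 * s * q := by
        have : 0 ≤ a / 2 * q := by positivity
        nlinarith
      have h10 : a / 2 * δ * s ≤ a / 2 * s * q := by
        have : 0 ≤ a / 2 * s := by positivity
        nlinarith
      linarith
    nlinarith

end Pool.Agent.H87.HK
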