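import Pool.Agent.H25.HK.Targets

set_option autoImplicit false

open NumberField NumberField.InfinitePlace NumberField.Units
  NumberField.Units.dirichletUnitTheorem MeasureTheory Set Filter Complex
open scoped nonZeroDivisors ENNReal

namespace Pool.Agent.H87.HK

open _root_.Pool.Agent.H25.HK

lemma qK_mono {K : Type} [Field K] [NumberField K] {y y' : InfinitePlace K → ℝ}
    (h : ∀ v, y v ≤ y' v) (x : K) : qK K y x ≤ qK K y' x := by
  unfold qK
  refine Finset.sum_le_sum fun v _ => ?_
  have h1 := Real.exp_le_exp.2 (h v)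
  have h2 : (0 : ℝ) ≤ v.mult := Nat.cast_nonneg _
  exact mul_le_mul_of_nonneg_right (mul_le_mul_of_nonneg_left h1 h2) (sq_nonneg _)

theorem ct (h : T_TH) : T_CT := by
  intro K _ _ M hM
  rw [continuous_iff_continuousAt]
  intro y0
  have hcont : ContinuousOn (th K M) {y | ∀ v, -(1 + ∑ w, |y0 w|) < y v} := by
    unfold th
    refine continuousOn_tsum (u := fun x : {x : K // x ∈ M} =>
      Real.exp (-Real.pi * qK K (fun _ => -(1 + ∑ w, |y0 w|)) x)) ?_ (h K M hM _).1 ?_
    · intro x
      refine Continuous.continuousOn ?_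
      unfold qK
      fun_prop
    · intro x y hy
      rw [Real.norm_eq_abs, abs_of_pos (Real.exp_pos _)]
      apply Real.exp_le_exp.2
      have h1 := qK_mono (y := fun _ => -(1 + ∑ w, |y0 w|)) (y' := y)
        (fun v => (hy v).le) (x : K)
      have := Real.pi_pos
      nlinarith
  refine hcont.continuousAt (IsOpen.mem_nhds ?_ ?_)
  · have : {y : InfinitePlace K → ℝ | ∀ v, -(1 + ∑ w, |y0 w|) < y v} =
        ⋂ v, {y | -(1 + ∑ w, |y0 w|) < y v} := by
      ext y
      simp
    rw [this]
    exact isOpen_iInter_of_finite fun v => isOpen_lt continuous_const (continuous_apply v)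
  · intro v
    have h1 : |y0 v| ≤ ∑ w, |y0 w| :=
      Finset.single_le_sum (f := fun w => |y0 w|) (fun w _ => abs_nonneg _) (Finset.mem_univ v)
    have h2 := neg_abs_le (y0 v)
    linarith

end Pool.Agent.H87.HK
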