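import Pool.Agent.H25.HK.Targets

set_option autoImplicit false

open NumberField NumberField.InfinitePlace NumberField.Units
  NumberField.Units.dirichletUnitTheorem MeasureTheory Set Filter Complex
open scoped nonZeroDivisors ENNReal

namespace Pool.Agent.H87.HK

open _root_.Pool.Agent.H25.HK

lemma unit_mul_mem {K : Type} [Field K] [NumberField K] (M : FI K) (u : (𝓞 K)ˣ) {x : K}
    (hx : x ∈ M) : (u : K) * x ∈ M := by
  have h1 : x ∈ (M : Submodule (𝓞 K) K) := hx
  have h2 := (M : Submodule (𝓞 K) K).smul_mem (u : 𝓞 K) h1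
  rw [Algebra.smul_def] at h2
  exact h2

lemma unit_inv_mul {K : Type} [Field K] [NumberField K] (u : (𝓞 K)ˣ) :
    ((u⁻¹ : (𝓞 K)ˣ) : K) * (u : K) = 1 := by
  have : (((u⁻¹ : (𝓞 K)ˣ) : 𝓞 K) * (u : 𝓞 K)) = 1 := u.inv_mul
  have h2 := congrArg (algebraMap (𝓞 K) K) this
  rwa [map_mul, map_one] at h2

/-- multiplication by a unit on a fractional ideal -/
noncomputable def uE {K : Type} [Field K] [NumberField K] (M : FI K) (u : (𝓞 K)ˣ) :
    {x : K // x ∈ M} ≃ {x : K // x ∈ M} where
  toFun x := ⟨(u : K) * x, unit_mul_mem M u x.2⟩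
  invFun x := ⟨((u⁻¹ : (𝓞 K)ˣ) : K) * x, unit_mul_mem M u⁻¹ x.2⟩
  left_inv x := by
    apply Subtype.ext
    show ((u⁻¹ : (𝓞 K)ˣ) : K) * ((u : K) * x) = x
    rw [← mul_assoc, unit_inv_mul, one_mul]
  right_inv x := by
    apply Subtype.ext
    show (u : K) * (((u⁻¹ : (𝓞 K)ˣ) : K) * x) = x
    rw [← mul_assoc, mul_comm (u : K), unit_inv_mul, one_mul]

theorem ui (h : T_YC) : T_UI := by
  intro K _ _ M τ z u
  have h1 : ∀ x : K, qK K (yc K τ (z + logEmbedding K (Additive.ofMul u))) x =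
      qK K (yc K τ z) ((u : K) * x) := by
    intro x
    unfold qK
    refine Finset.sum_congr rfl fun v _ => ?_
    rw [(h K).2.2.1, Real.exp_add, map_mul, mul_pow]
    have hpos : 0 < v (u : K) := by
      rw [NumberField.InfinitePlace.pos_iff]
      exact fun h0 => by
        have := unit_inv_mul u
        rw [h0, mul_zero] at this
        exact zero_ne_one this
    have h2 : Real.exp (2 * Real.log (v (u : K))) = v (u : K) ^ 2 := by
      rw [two_mul, Real.exp_add, Real.exp_log hpos, sq]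
    rw [h2]
    ring
  refine ⟨h1, ?_⟩
  unfold th
  rw [← (uE M u).tsum_eq (fun x : {x : K // x ∈ M} => Real.exp (-Real.pi *
    qK K (yc K τ z) x))]
  refine tsum_congr fun x => ?_
  rw [h1]
  rfl

end Pool.Agent.H87.HK
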